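import Mathlib

/-! Left Riemann sums of `1 / t` decrease strictly; differences of harmonic numbers along two
progressions are injective. -/

namespace Pool.Agent.MP_0c16b3_nt.H

open Finset

/-- `hq n = 1 + 1/2 + ⋯ + 1/(n-1)`. -/
def hq (n : ℕ) : ℚ := ∑ i ∈ range n, ((i : ℚ))⁻¹

theorem term_le (c x j : ℚ) (hc : 0 < c) (hx : 0 < x) (hj : 0 ≤ j) (hjc : j ≤ c) :
    (c + 1) ^ 2 * ((c + 1) * x + (j + 1))⁻¹ ≤
      c * ((j + 1) * (c * x + j)⁻¹ + (c - j) * (c * x + (j + 1))⁻¹) := by
  have h1 : 0 < c * x + j := by positivity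
  have h2 : 0 < c * x + (j + 1) := by positivity
  have h3 : 0 < (c + 1) * x + (j + 1) := by positivity
  rw [← sub_nonneg]
  have : c * ((j + 1) * (c * x + j)⁻¹ + (c - j) * (c * x + (j + 1))⁻¹) -
      (c + 1) ^ 2 * ((c + 1) * x + (j + 1))⁻¹ =
      (j + 1) * (c - j) / ((c * x + j) * (c * x + (j + 1)) * ((c + 1) * x + (j + 1))) := by
    field_simp
    ring
  rw [this]
  have : 0 ≤ c - j := by linarith
  positivity

theorem psum_le (c : ℕ) (x : ℚ) (hc : 0 < c) (hx : 0 < x) (n : ℕ) (hn : n ≤ c) :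
    ((c : ℚ) + 1) ^ 2 * ∑ j ∈ range (n + 1), (((c : ℚ) + 1) * x + j)⁻¹ ≤
      c * ((c + 2) * ∑ j ∈ range n, ((c : ℚ) * x + j)⁻¹ + (c + 1 - n) * ((c : ℚ) * x + n)⁻¹) := by
  have hc' : (0 : ℚ) < c := by exact_mod_cast hc
  induction n with
  | zero =>
    simp only [zero_add, range_one, sum_singleton, Nat.cast_zero, add_zero, range_zero, sum_empty,
      mul_zero, sub_zero]
    apply le_of_eq
    field_simp
  | succ n ih =>
    have h1 := ih (by omega)
    have h2 := term_le c x n hc' hx (by positivity) (by exact_mod_cast (by omega : n ≤ c))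
    rw [sum_range_succ _ (n + 1), sum_range_succ (fun j : ℕ => ((c : ℚ) * x + j)⁻¹) n]
    push_cast
    linarith

theorem rie_lt (c : ℕ) (x : ℚ) (hc : 0 < c) (hx : 0 < x) :
    ∑ j ∈ range (c + 1), (((c : ℚ) + 1) * x + j)⁻¹ < ∑ j ∈ range c, ((c : ℚ) * x + j)⁻¹ := by
  have hc' : (0 : ℚ) < c := by exact_mod_cast hc
  have h1 := psum_le c x hc hx c le_rfl
  have h2 : ∑ _j ∈ range c, ((c : ℚ) * x + c)⁻¹ < ∑ j ∈ range c, ((c : ℚ) * x + j)⁻¹ := by
    refine sum_lt_sum_of_nonempty (nonempty_range_iff.2 hc.ne') (fun j hj => ?_)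
    have : (j : ℚ) < c := by exact_mod_cast mem_range.1 hj
    exact inv_strictAnti₀ (by positivity) (by linarith)
  rw [sum_const, card_range, nsmul_eq_mul] at h2
  have h3 : (0 : ℚ) < ((c : ℚ) + 1) ^ 2 := by positivity
  apply lt_of_mul_lt_mul_left _ h3.le
  nlinarith

theorem hq_step (c x : ℕ) :
    hq (c * (x + 1)) - hq (c * x) = ∑ j ∈ range c, ((c : ℚ) * x + j)⁻¹ := by
  rw [hq, hq, mul_add, mul_one, sum_range_add]
  push_cast
  ring

theorem step_anti {c d x : ℕ} (hc : 0 < c) (hx : 0 < x) (h : c < d) :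
    hq (d * (x + 1)) - hq (d * x) < hq (c * (x + 1)) - hq (c * x) := by
  have hx' : (0 : ℚ) < x := by exact_mod_cast hx
  induction d, h using Nat.le_induction with
  | base =>
    rw [hq_step, hq_step]
    have := rie_lt c x hc hx'
    push_cast
    exact this
  | succ d hd ih =>
    refine lt_trans ?_ ih
    rw [hq_step, hq_step]
    have := rie_lt d x (by omega) hx'
    push_cast
    exact this

theorem diff_anti {c d x y : ℕ} (hc : 0 < c) (hx : 0 < x) (h : c < d) (hxy : x < y) :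
    hq (d * y) - hq (c * y) < hq (d * x) - hq (c * x) := by
  induction y, hxy using Nat.le_induction with
  | base =>
    have := step_anti hc hx h
    simp only [Nat.succ_eq_add_one]
    linarith
  | succ y hy ih =>
    have := step_anti hc (by omega : 0 < y) h
    linarith

end Pool.Agent.MP_0c16b3_nt.H
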