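import Mathlib

/-! A set of integers without a product rectangle has density zero. -/

namespace Pool.Agent.MP_0c16b3_nt.H

open Finset

theorem exists_primes (Y : ℕ) (δ : ℝ) (hδ : 0 < δ) : ∃ P : Finset ℕ,
    (∀ v ∈ P, v.Prime ∧ Y < v) ∧ ∏ v ∈ P, (1 - (v : ℝ)⁻¹) ≤ δ := by
  have hnn : ∀ n : ℕ, 0 ≤ Set.indicator {p : ℕ | p.Prime} (fun n : ℕ => (1 : ℝ) / n) n :=
    fun n => Set.indicator_nonneg (fun _ _ => by positivity) n
  have h := (not_summable_iff_tendsto_nat_atTop_of_nonneg hnn).1 not_summable_one_div_on_primes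
  obtain ⟨y, hy⟩ := (h.eventually_ge_atTop (δ⁻¹ + (Y + 1))).exists
  refine ⟨(range y).filter (fun v => v.Prime ∧ Y < v), fun v hv => (mem_filter.1 hv).2, ?_⟩
  have h1 : ∑ i ∈ range y, Set.indicator {p : ℕ | p.Prime} (fun n : ℕ => (1 : ℝ) / n) i ≤
      ∑ v ∈ (range y).filter (fun v => v.Prime ∧ Y < v), (v : ℝ)⁻¹ + (Y + 1) := by
    rw [← sum_filter_add_sum_filter_not (range y) (fun v => v.Prime ∧ Y < v)]
    refine add_le_add (sum_le_sum (fun v hv => ?_)) ?_
    · rw [Set.indicator_of_mem (by exact (mem_filter.1 hv).2.1), one_div]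
    · calc ∑ i ∈ (range y).filter (fun v => ¬ (v.Prime ∧ Y < v)),
            Set.indicator {p : ℕ | p.Prime} (fun n : ℕ => (1 : ℝ) / n) i
          ≤ ∑ i ∈ (range y).filter (fun v => ¬ (v.Prime ∧ Y < v)),
            (if i ∈ range (Y + 1) then (1 : ℝ) else 0) := by
            refine sum_le_sum (fun v hv => ?_)
            by_cases hp : v.Prime
            · have h2 : v ∈ range (Y + 1) := by
                have := (mem_filter.1 hv).2
                rw [mem_range]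
                by_contra h3
                exact this ⟨hp, by omega⟩
              rw [if_pos h2, Set.indicator_of_mem (by exact hp)]
              have : (1 : ℝ) ≤ v := by exact_mod_cast hp.one_le
              rw [div_le_one (by linarith)]
              exact this
            · rw [Set.indicator_of_notMem (by exact hp)]
              split_ifs <;> norm_num
        _ ≤ Y + 1 := by
            rw [sum_ite_mem, sum_const, nsmul_eq_mul, mul_one]
            have := card_le_card (inter_subset_right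
              (s₁ := (range y).filter (fun v => ¬ (v.Prime ∧ Y < v))) (s₂ := range (Y + 1)))
            rw [card_range] at this
            exact_mod_cast this
  obtain ⟨s, hs⟩ : ∃ s : ℝ, s = ∑ v ∈ (range y).filter (fun v => v.Prime ∧ Y < v), (v : ℝ)⁻¹ :=
    ⟨_, rfl⟩
  have h2 : δ⁻¹ ≤ s := by rw [hs]; linarith
  calc ∏ v ∈ (range y).filter (fun v => v.Prime ∧ Y < v), (1 - (v : ℝ)⁻¹)
      ≤ ∏ v ∈ (range y).filter (fun v => v.Prime ∧ Y < v), Real.exp (-(v : ℝ)⁻¹) := by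
        refine prod_le_prod (fun v hv => ?_) (fun v _ => Real.one_sub_le_exp_neg _)
        have : (1 : ℝ) ≤ v := by exact_mod_cast (mem_filter.1 hv).2.1.one_le
        have := inv_le_one_of_one_le₀ this
        linarith
    _ = Real.exp (-s) := by rw [← Real.exp_sum, hs, sum_neg_distrib]
    _ ≤ δ := by
        rw [Real.exp_neg]
        have := Real.add_one_le_exp s
        exact inv_le_of_inv_le₀ hδ (by linarith)

theorem edges (P : Finset ℕ) (hP : ∀ v ∈ P, 0 < v) (U : ℕ) (B : Finset ℕ)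
    (hB : ∀ c d x y : ℕ, 0 < c → c < d → 0 < x → x < y → c * x ∈ B → d * x ∈ B → c * y ∈ B →
      d * y ∈ B → False) :
    ((P ×ˢ Icc 1 U).filter (fun e => e.1 * e.2 ∈ B)).card ≤ U + P.card ^ 2 := by
  classical
  rw [← card_filter_add_card_filter_not (fun e : ℕ × ℕ => ∃ c ∈ P, c < e.1 ∧ c * e.2 ∈ B),
    add_comm]
  refine add_le_add ?_ ?_
  · have : (Icc 1 U).card = U := by simp
    rw [← this]
    refine card_le_card_of_injOn (fun e => e.2) (fun e he => ?_) ?_
    · simp only [coe_filter, mem_filter, mem_product, Set.mem_ofPred_eq] at he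
      exact mem_coe.2 (by simpa using he.1.1.2)
    · rintro ⟨c, x⟩ h1 ⟨d, y⟩ h2 hxy
      simp only [coe_filter, mem_filter, mem_product, Set.mem_ofPred_eq] at h1 h2 hxy
      subst hxy
      rcases lt_trichotomy c d with h | h | h
      · exact absurd ⟨c, h1.1.1.1, h, h1.1.2⟩ h2.2
      · rw [h]
      · exact absurd ⟨d, h2.1.1.1, h, h2.1.2⟩ h1.2
  · rw [sq, ← card_product]
    refine card_le_card_of_forall_subsingleton
      (fun (e t : ℕ × ℕ) => t.1 = e.1 ∧ t.2 < e.1 ∧ t.2 * e.2 ∈ B) (fun e he => ?_) ?_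
    · simp only [mem_filter, mem_product] at he
      obtain ⟨⟨⟨h1, -⟩, -⟩, c, hc, h2, h3⟩ := he
      exact ⟨(e.1, c), mem_product.2 ⟨h1, hc⟩, rfl, h2, h3⟩
    · rintro ⟨d, c⟩ ht ⟨d1, x⟩ h1 ⟨d2, y⟩ h2
      simp only [mem_filter, mem_product, Set.mem_ofPred_eq, mem_Icc] at ht h1 h2
      obtain ⟨⟨⟨⟨-, hx, -⟩, a1⟩, -⟩, rfl, a2, a3⟩ := h1
      obtain ⟨⟨⟨⟨-, hy, -⟩, b1⟩, -⟩, rfl, -, b3⟩ := h2
      rcases lt_trichotomy x y with h | h | h
      · exact (hB c d x y (hP c ht.2) a2 hx h a3 a1 b3 b1).elim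
      · rw [h]
      · exact (hB c d y x (hP c ht.2) a2 hy h b3 b1 a3 a1).elim

theorem sid (ε : ℝ) (hε : 0 < ε) : ∃ K0 : ℕ, ∀ K : ℕ, K0 ≤ K → ∀ B : Finset ℕ, B ⊆ Icc 1 K →
    (∀ c d x y : ℕ, 0 < c → c < d → 0 < x → x < y → c * x ∈ B → d * x ∈ B → c * y ∈ B →
      d * y ∈ B → False) → (B.card : ℝ) ≤ ε * K := by
  obtain ⟨Y, hY⟩ := exists_nat_gt (3 / ε)
  have hY0 : (0 : ℝ) < Y := lt_trans (by positivity) hY
  obtain ⟨P, hP, hprod⟩ := exists_primes Y (ε / 3) (by positivity)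
  obtain ⟨M, hM⟩ : ∃ M : ℕ, M = ∏ v ∈ P, v := ⟨_, rfl⟩
  have hM0 : M ≠ 0 := hM ▸ prod_ne_zero_iff.2 (fun v hv => (hP v hv).1.ne_zero)
  have hM1 : (0 : ℝ) < M := by exact_mod_cast Nat.pos_of_ne_zero hM0
  have htot : (Nat.totient M : ℝ) ≤ ε / 3 * M := by
    have h1 := Nat.totient_eq_mul_prod_factors M
    have h2 : M.primeFactors = P := hM ▸ Nat.primeFactors_prod (fun v hv => (hP v hv).1)
    rw [h2] at h1
    have h3 : (Nat.totient M : ℝ) = M * ∏ v ∈ P, (1 - (v : ℝ)⁻¹) := by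
      have := congrArg (fun q : ℚ => (q : ℝ)) h1
      push_cast at this
      exact this
    rw [h3, mul_comm]
    exact mul_le_mul_of_nonneg_right hprod hM1.le
  obtain ⟨K0, hK0⟩ := exists_nat_gt (3 * ((M : ℝ) + (P.card : ℝ) ^ 2) / ε)
  refine ⟨K0, fun K hK B hB hrect => ?_⟩
  have h1 : (B.filter (fun b => M.Coprime b)).card ≤ Nat.totient M * (K / M + 1) := by
    refine le_trans (card_le_card ?_) (Nat.Ico_filter_coprime_le 1 K hM0)
    intro b hb
    obtain ⟨h1, h2⟩ := mem_filter.1 hb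
    have := mem_Icc.1 (hB h1)
    exact mem_filter.2 ⟨mem_Ico.2 ⟨this.1, by omega⟩, h2⟩
  have h2 : (B.filter (fun b => ¬ M.Coprime b)).card ≤ K / Y + P.card ^ 2 := by
    refine le_trans ?_ (edges P (fun v hv => (hP v hv).1.pos) (K / Y) B hrect)
    refine le_trans (card_le_card ?_) (card_image_le (f := fun e : ℕ × ℕ => e.1 * e.2))
    intro b hb
    obtain ⟨h1, h2⟩ := mem_filter.1 hb
    have h3 := mem_Icc.1 (hB h1)
    rw [hM, Nat.coprime_prod_left_iff] at h2
    push Not at h2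
    obtain ⟨v, hv, h4⟩ := h2
    obtain ⟨u, rfl⟩ := ((hP v hv).1.dvd_iff_not_coprime).2 h4
    have hu : 0 < u := Nat.pos_of_ne_zero (by rintro rfl; simp at h3)
    refine mem_image.2 ⟨(v, u), mem_filter.2 ⟨mem_product.2 ⟨hv, mem_Icc.2 ⟨hu, ?_⟩⟩, h1⟩, rfl⟩
    rw [Nat.le_div_iff_mul_le (by exact_mod_cast hY0)]
    have := (hP v hv).2
    nlinarith [h3.2]
  have h3 := card_filter_add_card_filter_not (s := B) (fun b => M.Coprime b)
  have h4 : (B.card : ℝ) ≤ (Nat.totient M : ℝ) * (((K / M : ℕ) : ℝ) + 1) +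
      (((K / Y : ℕ) : ℝ) + (P.card : ℝ) ^ 2) := by
    have : B.card ≤ Nat.totient M * (K / M + 1) + (K / Y + P.card ^ 2) := by omega
    exact_mod_cast this
  have hK' : (0 : ℝ) ≤ K := Nat.cast_nonneg K
  have h5 : ((K / M : ℕ) : ℝ) * M ≤ K := by exact_mod_cast Nat.div_mul_le_self K M
  have h6 : ((K / Y : ℕ) : ℝ) ≤ ε / 3 * K := by
    refine Nat.cast_div_le.trans ?_
    rw [div_lt_iff₀ hε] at hY
    rw [div_le_iff₀ hY0]
    nlinarith
  have h7 : (M : ℝ) + (P.card : ℝ) ^ 2 ≤ ε / 3 * K := by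
    have : (K0 : ℝ) ≤ K := by exact_mod_cast hK
    rw [div_lt_iff₀ hε] at hK0
    nlinarith
  have h8 : (Nat.totient M : ℝ) ≤ M := by exact_mod_cast Nat.totient_le M
  have h9 : (Nat.totient M : ℝ) * ((K / M : ℕ) : ℝ) ≤ ε / 3 * K := by
    have := mul_le_mul_of_nonneg_right htot (Nat.cast_nonneg (α := ℝ) (K / M))
    nlinarith
  nlinarith

end Pool.Agent.MP_0c16b3_nt.H
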