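import Pool.Agent.MP_0c16b3_nt.W.Rec
import Pool.Agent.MP_0c16b3_nt.H.Rie
import Pool.Agent.MP_0c16b3_nt.H.Sid

/-! Adjacent fixed windows rarely have the same numerator. -/

namespace Pool.Agent.MP_0c16b3_nt.H

open Finset Pool.Agent.MP_0c16b3_nt.W

theorem dvd_pow_sub (p : ℕ) (hp : p.Prime) (m : ℕ) : (p : ℤ) ∣ (m : ℤ) ^ p - m := by
  have : Fact p.Prime := ⟨hp⟩
  rw [← ZMod.intCast_zmod_eq_zero_iff_dvd]
  push_cast
  rw [ZMod.pow_card, sub_self]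

theorem fq_mul (p : ℕ) (hp : p.Prime) (a b : ℕ) :
    fq p (a * b) = (a : ZMod p) * fq p b + (b : ZMod p) * fq p a := by
  obtain ⟨s, hs⟩ := dvd_pow_sub p hp a
  obtain ⟨t, ht⟩ := dvd_pow_sub p hp b
  have hp0 : (p : ℤ) ≠ 0 := by exact_mod_cast hp.ne_zero
  have h : ((a * b : ℕ) : ℤ) ^ p - (a * b : ℕ) = p * (a * t + b * s + p * (s * t)) := by
    push_cast
    rw [mul_pow, sub_eq_iff_eq_add.1 hs, sub_eq_iff_eq_add.1 ht]
    ring
  rw [fq, fq, fq, h, hs, ht, Int.mul_ediv_cancel_left _ hp0, Int.mul_ediv_cancel_left _ hp0,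
    Int.mul_ediv_cancel_left _ hp0]
  push_cast
  rw [ZMod.natCast_self]
  ring

/-- `K!` times `hq n`, as a natural number. -/
def hn (K n : ℕ) : ℕ := ∑ i ∈ range n, K.factorial / i

theorem hn_cast (F : Type) [Field F] (K n : ℕ) (hn' : n ≤ K + 1)
    (hF : ∀ i : ℕ, 0 < i → i ≤ K → (i : F) ≠ 0) :
    (hn K n : F) = (K.factorial : F) * ∑ i ∈ range n, ((i : F))⁻¹ := by
  rw [hn, Nat.cast_sum, mul_sum]
  refine sum_congr rfl (fun i hi => ?_)
  have := mem_range.1 hi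
  rcases Nat.eq_zero_or_pos i with rfl | h0
  · simp
  · rw [Nat.cast_div (Nat.dvd_factorial h0 (by omega)) (hF i h0 (by omega)), div_eq_mul_inv]

theorem hn_le (K n : ℕ) (h : n ≤ K) : hn K n ≤ K * K.factorial := by
  refine (sum_le_card_nsmul _ _ K.factorial (fun i _ => Nat.div_le_self _ _)).trans ?_
  rw [card_range, smul_eq_mul]
  exact Nat.mul_le_mul_right _ h

theorem adj (ε : ℝ) (hε : 0 < ε) : ∃ K0 : ℕ, ∀ K : ℕ, K0 ≤ K → ∃ p0 : ℕ, ∀ p : ℕ, p.Prime →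
    p0 ≤ p → (((Icc 1 K).filter
      (fun m : ℕ => num p m ≡ num p (m - 1) [ZMOD (p : ℤ) ^ 3])).card : ℝ) ≤ ε * K := by
  obtain ⟨K0, hK0⟩ := sid ε hε
  refine ⟨K0, fun K hK => ⟨2 * (K * K.factorial) + K + 3, fun p hp hp0 => ?_⟩⟩
  have : Fact p.Prime := ⟨hp⟩
  obtain ⟨φ, ω, hφ, hω, hrec⟩ := recS p hp (by omega)
  have hne : ∀ i : ℕ, 0 < i → i ≤ K → (i : ZMod p) ≠ 0 := by
    intro i h0 hi h
    have := Nat.le_of_dvd h0 ((ZMod.natCast_eq_zero_iff i p).1 h)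
    omega
  have hom : ∀ k : ℕ, k < K → ω k = ω 0 - ∑ i ∈ range (k + 1), ((i : ZMod p))⁻¹ := by
    intro k hk
    induction k with
    | zero => simp
    | succ k ih =>
      have h1 := hω k (by omega)
      have h2 := hne (k + 1) (by omega) (by omega)
      rw [sum_range_succ, ← sub_sub, ← ih (by omega)]
      push_cast at h2 ⊢
      field_simp
      linear_combination h1
  refine hK0 K hK _ (filter_subset _ _) ?_
  have key : ∀ m ∈ (Icc 1 K).filter (fun m : ℕ => num p m ≡ num p (m - 1) [ZMOD (p : ℤ) ^ 3]),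
      m ≤ K ∧ (m : ZMod p) ≠ 0 ∧
        fq p m = (m : ZMod p) * (1 - ω 0 + ∑ i ∈ range m, ((i : ZMod p))⁻¹) := by
    intro m hm
    obtain ⟨h1, h2⟩ := mem_filter.1 hm
    obtain ⟨h3, h4⟩ := mem_Icc.1 h1
    refine ⟨h4, hne m h3 h4, ?_⟩
    obtain ⟨k, rfl⟩ : ∃ k, m = k + 1 := ⟨m - 1, by omega⟩
    have h5 := hφ _ _ (by omega) (by omega) h2
    have h6 := hrec k (by omega)
    rw [Nat.add_sub_cancel] at h5
    rw [h5, hom k (by omega)] at h6
    push_cast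
    linear_combination h6
  intro c d x y hc hcd hx hxy h1 h2 h3 h4
  obtain ⟨a1, b1, e1⟩ := key _ h1
  obtain ⟨a2, b2, e2⟩ := key _ h2
  obtain ⟨a3, -, e3⟩ := key _ h3
  obtain ⟨a4, b4, e4⟩ := key _ h4
  have hm : fq p (c * x * (d * y)) = fq p (d * x * (c * y)) := by
    congr 1
    ring
  rw [fq_mul p hp (c * x), fq_mul p hp (d * x), e1, e2, e3, e4] at hm
  have hz : ∑ i ∈ range (c * x), ((i : ZMod p))⁻¹ + ∑ i ∈ range (d * y), ((i : ZMod p))⁻¹ =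
      ∑ i ∈ range (d * x), ((i : ZMod p))⁻¹ + ∑ i ∈ range (c * y), ((i : ZMod p))⁻¹ := by
    apply mul_left_cancel₀ (mul_ne_zero b1 b4)
    push_cast at hm ⊢
    linear_combination hm
  have hz2 : ((hn K (c * x) + hn K (d * y) : ℕ) : ZMod p) =
      ((hn K (d * x) + hn K (c * y) : ℕ) : ZMod p) := by
    rw [Nat.cast_add, Nat.cast_add, hn_cast _ K _ (by omega) hne, hn_cast _ K _ (by omega) hne,
      hn_cast _ K _ (by omega) hne, hn_cast _ K _ (by omega) hne, ← mul_add, ← mul_add, hz]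
  have k1 := hn_le K _ a1
  have k2 := hn_le K _ a2
  have k3 := hn_le K _ a3
  have k4 := hn_le K _ a4
  have hz3 : hn K (c * x) + hn K (d * y) = hn K (d * x) + hn K (c * y) :=
    Nat.ModEq.eq_of_lt_of_lt ((ZMod.natCast_eq_natCast_iff _ _ _).1 hz2) (by omega) (by omega)
  have hQ : ∀ i : ℕ, 0 < i → i ≤ K → (i : ℚ) ≠ 0 := fun i h0 _ => by exact_mod_cast h0.ne'
  have hz4 := congrArg (fun n : ℕ => (n : ℚ)) hz3
  simp only [Nat.cast_add] at hz4
  rw [hn_cast _ K _ (by omega) hQ, hn_cast _ K _ (by omega) hQ, hn_cast _ K _ (by omega) hQ,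
    hn_cast _ K _ (by omega) hQ, ← mul_add, ← mul_add] at hz4
  have hz5 := mul_left_cancel₀ (by exact_mod_cast K.factorial_ne_zero) hz4
  have := diff_anti hc hx hcd hxy
  simp only [hq] at this
  linarith

theorem half (ε : ℝ) (hε : 0 < ε) : ∃ K0 : ℕ, ∀ K : ℕ, K0 ≤ K → ∃ p0 : ℕ, ∀ p : ℕ, p.Prime →
    p0 ≤ p → ∀ r : ℤ, (((range K).filter
      (fun k : ℕ => num p k ≡ r [ZMOD (p : ℤ) ^ 3])).card : ℝ) ≤ (1 / 2 + ε) * K := by
  obtain ⟨K0, hK0⟩ := adj (ε / 2) (by positivity)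
  obtain ⟨K1, hK1⟩ := exists_nat_gt (2 / ε)
  refine ⟨K0 + K1, fun K hK => ?_⟩
  obtain ⟨p0, hp0⟩ := hK0 K (by omega)
  refine ⟨p0, fun p hp hpp r => ?_⟩
  have h1 := hp0 p hp hpp
  obtain ⟨A, hA⟩ : ∃ A : Finset ℕ,
      A = (range K).filter (fun k : ℕ => num p k ≡ r [ZMOD (p : ℤ) ^ 3]) := ⟨_, rfl⟩
  rw [← hA]
  have hmem : ∀ k ∈ A, k < K ∧ num p k ≡ r [ZMOD (p : ℤ) ^ 3] := by
    intro k hk
    rw [hA, mem_filter, mem_range] at hk
    exact hk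
  have h2 : (A.filter (fun k => k % 2 = 1 ∧ k - 1 ∈ A)).card ≤ ((Icc 1 K).filter
      (fun m : ℕ => num p m ≡ num p (m - 1) [ZMOD (p : ℤ) ^ 3])).card := by
    refine card_le_card (fun k hk => ?_)
    obtain ⟨a1, a2, a3⟩ := mem_filter.1 hk
    have := (hmem k a1).1
    exact mem_filter.2 ⟨mem_Icc.2 ⟨by omega, by omega⟩, (hmem k a1).2.trans (hmem _ a3).2.symm⟩
  have h3 : (A.filter (fun k => ¬ (k % 2 = 1 ∧ k - 1 ∈ A))).card ≤ K / 2 + 1 := by
    rw [← card_range (K / 2 + 1)]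
    refine card_le_card_of_injOn (fun k => k / 2) (fun k hk => ?_) ?_
    · have := (hmem k (mem_filter.1 (mem_coe.1 hk)).1).1
      exact mem_coe.2 (mem_range.2 (by beta_reduce; omega))
    · intro j hj k hk hjk
      obtain ⟨a1, a2⟩ := mem_filter.1 (mem_coe.1 hj)
      obtain ⟨b1, b2⟩ := mem_filter.1 (mem_coe.1 hk)
      beta_reduce at hjk
      by_contra hne
      rcases lt_or_gt_of_ne hne with h | h
      · exact b2 ⟨by omega, by rw [show k - 1 = j by omega]; exact a1⟩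
      · exact a2 ⟨by omega, by rw [show j - 1 = k by omega]; exact b1⟩
  have h4 := card_filter_add_card_filter_not (s := A) (fun k => k % 2 = 1 ∧ k - 1 ∈ A)
  have h5 : (A.card : ℝ) ≤ (((Icc 1 K).filter
      (fun m : ℕ => num p m ≡ num p (m - 1) [ZMOD (p : ℤ) ^ 3])).card : ℝ) +
      (((K / 2 : ℕ) : ℝ) + 1) := by
    have : A.card ≤ ((Icc 1 K).filter
      (fun m : ℕ => num p m ≡ num p (m - 1) [ZMOD (p : ℤ) ^ 3])).card + (K / 2 + 1) := by omega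
    exact_mod_cast this
  have h6 : ((K / 2 : ℕ) : ℝ) ≤ (K : ℝ) / 2 := by exact_mod_cast @Nat.cast_div_le ℝ _ _ _ K 2
  have h7 : 1 ≤ ε / 2 * K := by
    have : (K1 : ℝ) ≤ K := by exact_mod_cast (by omega : K1 ≤ K)
    rw [div_lt_iff₀ hε] at hK1
    nlinarith
  linarith

end Pool.Agent.MP_0c16b3_nt.H
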